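import Pool.Agent.LE.StmtsQG

/-!
# Squad LQF (MP_1906c1_mp), row PWU: high powers of scalars (helper67)
-/

set_option autoImplicit false

open MeasureTheory ProbabilityTheory Function Filter

open scoped ENNReal BigOperators Topology NNReal ComplexOrder Matrix

noncomputable section

namespace Pool.Agent.LE.QF.H67

open Pool.Agent.LE.QF

/-- the first elementary inequality -/
theorem pw1 (x : ℝ) (n : ℕ) (hx : 0 ≤ x) (hn : 1 ≤ n) :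
    (x ^ 2) ^ (n - 1) * x ≤ 2 * ((x ^ 2) ^ n + (1 / 4) ^ n) := by
  obtain ⟨m, rfl⟩ : ∃ m, n = m + 1 := ⟨n - 1, by omega⟩
  simp only [Nat.add_sub_cancel]
  have h4 : (0 : ℝ) ≤ (1 / 4) ^ (m + 1) := by positivity
  have h5 : (0 : ℝ) ≤ (x ^ 2) ^ m := by positivity
  have h6 : (0 : ℝ) ≤ (x ^ 2) ^ (m + 1) := by positivity
  rcases le_or_gt (1 / 2) x with h | h
  · have h1 : (x ^ 2) ^ (m + 1) = (x ^ 2) ^ m * x * x := by ring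
    have h2 : (x ^ 2) ^ m * x * (1 / 2) ≤ (x ^ 2) ^ m * x * x :=
      mul_le_mul_of_nonneg_left h (mul_nonneg h5 hx)
    linarith
  · have h1 : (x ^ 2) ^ m ≤ (1 / 4) ^ m := by
      apply pow_le_pow_left₀ (by positivity)
      nlinarith
    have h2 : (x ^ 2) ^ m * x ≤ (1 / 4) ^ m * (1 / 2) :=
      mul_le_mul h1 h.le hx (by positivity)
    have h3 : ((1 : ℝ) / 4) ^ (m + 1) = (1 / 4) ^ m * (1 / 4) := by ring
    linarith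

/-- the second elementary inequality -/
theorem pw2 (x : ℝ) (n : ℕ) (hx : 0 ≤ x) (hn : 1 ≤ n) :
    (x ^ 2) ^ (n - 1) ≤ 4 * ((x ^ 2) ^ n + (1 / 4) ^ n) := by
  obtain ⟨m, rfl⟩ : ∃ m, n = m + 1 := ⟨n - 1, by omega⟩
  simp only [Nat.add_sub_cancel]
  have h4 : (0 : ℝ) ≤ (1 / 4) ^ (m + 1) := by positivity
  have h5 : (0 : ℝ) ≤ (x ^ 2) ^ m := by positivity
  have h6 : (0 : ℝ) ≤ (x ^ 2) ^ (m + 1) := by positivity
  rcases le_or_gt (1 / 2) x with h | h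
  · have h1 : (x ^ 2) ^ (m + 1) = (x ^ 2) ^ m * (x ^ 2) := by ring
    have h3 : (1 / 4 : ℝ) ≤ x ^ 2 := by nlinarith
    have h2 : (x ^ 2) ^ m * (1 / 4) ≤ (x ^ 2) ^ m * (x ^ 2) :=
      mul_le_mul_of_nonneg_left h3 h5
    linarith
  · have h1 : (x ^ 2) ^ m ≤ (1 / 4) ^ m := by
      apply pow_le_pow_left₀ (by positivity)
      nlinarith
    have h3 : ((1 : ℝ) / 4) ^ (m + 1) = (1 / 4) ^ m * (1 / 4) := by ring
    linarith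

/-- the derivatives of the power -/
theorem dpow (δ : ℝ) (n : ℕ) (v : ℝ) :
    ContDiffAt ℝ 2 (fun x : ℝ => (x / δ ^ 2) ^ n) v ∧
    deriv (fun x : ℝ => (x / δ ^ 2) ^ n) v = n * (v / δ ^ 2) ^ (n - 1) * (1 / δ ^ 2) ∧
    deriv (deriv (fun x : ℝ => (x / δ ^ 2) ^ n)) v =
      n * (((n - 1 : ℕ) : ℝ) * (v / δ ^ 2) ^ (n - 1 - 1) * (1 / δ ^ 2)) * (1 / δ ^ 2) := by
  have h1 : ∀ (k : ℕ) (x : ℝ), HasDerivAt (fun x : ℝ => (x / δ ^ 2) ^ k)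
      (k * (x / δ ^ 2) ^ (k - 1) * (1 / δ ^ 2)) x := fun k x =>
    ((hasDerivAt_id x).div_const (δ ^ 2)).pow k
  have h2 : deriv (fun x : ℝ => (x / δ ^ 2) ^ n) =
      fun x => n * (x / δ ^ 2) ^ (n - 1) * (1 / δ ^ 2) := by
    funext x
    exact (h1 n x).deriv
  refine ⟨?_, (h1 n v).deriv, ?_⟩
  · exact (contDiffAt_id.div_const (δ ^ 2)).pow n
  · rw [h2]
    exact (((h1 (n - 1) v).const_mul (n : ℝ)).mul_const (1 / δ ^ 2)).deriv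

/-- one summand -/
theorem one (hjal : JalStmt) (ι : Type) [Fintype ι] [DecidableEq ι] (q : ℝ × (ι → ℝ))
    (F : ℝ × (ι → ℝ) → ℂ) (v l : ℂ) (g : ι → ℂ) (δ ℓ γ : ℝ) (n : ℕ) (hδ : 0 < δ) (hℓ : 0 ≤ ℓ)
    (hγ : 0 ≤ γ) (hn : 1 ≤ n) (hF : HJ F q v g l) (hl : ‖l‖ ≤ ℓ) (hg : ∑ c, ‖g c‖ ^ 2 ≤ γ) :
    ∃ (g' : ι → ℝ) (l' : ℝ), HJ (fun r => (‖F r‖ ^ 2 / δ ^ 2) ^ n) q
        ((‖v‖ ^ 2 / δ ^ 2) ^ n) g' l' ∧
        l' ≤ (4 * n * ℓ / δ + 8 * n ^ 2 * γ / δ ^ 2) *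
          ((‖v‖ ^ 2 / δ ^ 2) ^ n + (1 / 4) ^ n) := by
  obtain ⟨-, -, hmul, hconj, -, -, -, -⟩ := hjal ι ℂ q
  obtain ⟨-, -, -, -, hcomp, -, -, -⟩ := hjal ι ℝ q
  have h1 := (hmul F (fun r => (starRingEnd ℂ) (F r)) v ((starRingEnd ℂ) v) l
    ((starRingEnd ℂ) l) g (fun c => (starRingEnd ℂ) (g c)) hF (hconj F v l g hF).1).2.2
  have h2 := (hconj _ _ _ _ h1).2.1
  have e1 : (fun r => RCLike.re (F r * (starRingEnd ℂ) (F r))) = fun r => ‖F r‖ ^ 2 := by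
    funext r
    rw [RCLike.mul_conj]
    norm_cast
  have e2 : (RCLike.re (v * (starRingEnd ℂ) v) : ℝ) = ‖v‖ ^ 2 := by
    rw [RCLike.mul_conj]
    norm_cast
  rw [e1, e2] at h2
  set G : ι → ℝ := fun c => RCLike.re (v * (starRingEnd ℂ) (g c) + g c * (starRingEnd ℂ) v)
    with hG
  set L : ℝ := RCLike.re (v * (starRingEnd ℂ) l + l * (starRingEnd ℂ) v +
    ∑ c, g c * (starRingEnd ℂ) (g c)) with hL
  obtain ⟨d1, d2, d3⟩ := dpow δ n (‖v‖ ^ 2)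
  have h3 := (hcomp _ _ _ _ h2).2 (fun x : ℝ => (x / δ ^ 2) ^ n) d1
  refine ⟨_, _, h3, ?_⟩
  rw [d2, d3]
  -- bounds
  have bL : L ≤ 2 * ‖v‖ * ℓ + γ := by
    have a1 : RCLike.re (v * (starRingEnd ℂ) l) ≤ ‖v‖ * ℓ := by
      refine (RCLike.re_le_norm _).trans ?_
      rw [norm_mul, RCLike.norm_conj]
      exact mul_le_mul_of_nonneg_left hl (norm_nonneg _)
    have a2 : RCLike.re (l * (starRingEnd ℂ) v) ≤ ‖v‖ * ℓ := by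
      refine (RCLike.re_le_norm _).trans ?_
      rw [norm_mul, RCLike.norm_conj, mul_comm]
      exact mul_le_mul_of_nonneg_left hl (norm_nonneg _)
    have a3 : RCLike.re (∑ c, g c * (starRingEnd ℂ) (g c)) ≤ γ := by
      refine le_trans (le_of_eq ?_) hg
      rw [map_sum]
      refine Finset.sum_congr rfl fun c _ => ?_
      rw [RCLike.mul_conj]
      norm_cast
    rw [hL, map_add, map_add]
    linarith
  have bG : ∑ c, G c ^ 2 ≤ 4 * ‖v‖ ^ 2 * γ := by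
    have a1 : ∀ c, G c ^ 2 ≤ 4 * ‖v‖ ^ 2 * ‖g c‖ ^ 2 := by
      intro c
      have a2 : |G c| ≤ 2 * ‖v‖ * ‖g c‖ := by
        refine (RCLike.abs_re_le_norm _).trans ((norm_add_le _ _).trans (le_of_eq ?_))
        rw [norm_mul, norm_mul, RCLike.norm_conj, RCLike.norm_conj]
        ring
      calc G c ^ 2 = |G c| ^ 2 := (sq_abs _).symm
        _ ≤ (2 * ‖v‖ * ‖g c‖) ^ 2 := pow_le_pow_left₀ (abs_nonneg _) a2 2
        _ = 4 * ‖v‖ ^ 2 * ‖g c‖ ^ 2 := by ring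
    calc ∑ c, G c ^ 2 ≤ ∑ c, 4 * ‖v‖ ^ 2 * ‖g c‖ ^ 2 := Finset.sum_le_sum fun c _ => a1 c
      _ = 4 * ‖v‖ ^ 2 * ∑ c, ‖g c‖ ^ 2 := by rw [Finset.mul_sum]
      _ ≤ 4 * ‖v‖ ^ 2 * γ := mul_le_mul_of_nonneg_left hg (by positivity)
  set x : ℝ := ‖v‖ / δ with hx
  have hx0 : 0 ≤ x := by positivity
  have hxv : ‖v‖ ^ 2 / δ ^ 2 = x ^ 2 := by rw [hx]; ring
  have hvx : ‖v‖ = x * δ := by rw [hx]; field_simp
  rw [hxv]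
  have p1 := pw1 x n hx0 hn
  have p2 := pw2 x n hx0 hn
  have hn1 : (1 : ℝ) ≤ n := by exact_mod_cast hn
  have hn2 : ((n - 1 : ℕ) : ℝ) = n - 1 := by
    rw [Nat.cast_sub hn]; norm_num
  have hP : (0 : ℝ) ≤ (x ^ 2) ^ (n - 1) := by positivity
  -- first part
  have c1 : (n : ℝ) * (x ^ 2) ^ (n - 1) * (1 / δ ^ 2) * L ≤
      n * (x ^ 2) ^ (n - 1) * (1 / δ ^ 2) * (2 * ‖v‖ * ℓ + γ) :=
    mul_le_mul_of_nonneg_left bL (by positivity)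
  have c2 : (n : ℝ) * (((n - 1 : ℕ) : ℝ) * (x ^ 2) ^ (n - 1 - 1) * (1 / δ ^ 2)) *
      (1 / δ ^ 2) / 2 * ∑ c, G c ^ 2 ≤
      n * (((n - 1 : ℕ) : ℝ) * (x ^ 2) ^ (n - 1 - 1) * (1 / δ ^ 2)) *
      (1 / δ ^ 2) / 2 * (4 * ‖v‖ ^ 2 * γ) :=
    mul_le_mul_of_nonneg_left bG (by positivity)
  have c3 : ((n - 1 : ℕ) : ℝ) * (x ^ 2) ^ (n - 1 - 1) * x ^ 2 =
      ((n - 1 : ℕ) : ℝ) * (x ^ 2) ^ (n - 1) := by
    rcases Nat.eq_or_lt_of_le hn with h | h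
    · rw [← h]; simp
    · rw [mul_assoc, ← pow_succ]
      congr 2
      omega
  have c4 : (n : ℝ) * (((n - 1 : ℕ) : ℝ) * (x ^ 2) ^ (n - 1 - 1) * (1 / δ ^ 2)) *
      (1 / δ ^ 2) / 2 * (4 * ‖v‖ ^ 2 * γ) =
      2 * n * (n - 1) * (x ^ 2) ^ (n - 1) * (γ / δ ^ 2) := by
    have : (n : ℝ) * (((n - 1 : ℕ) : ℝ) * (x ^ 2) ^ (n - 1 - 1) * (1 / δ ^ 2)) *
      (1 / δ ^ 2) / 2 * (4 * ‖v‖ ^ 2 * γ) =
      2 * n * (((n - 1 : ℕ) : ℝ) * (x ^ 2) ^ (n - 1 - 1) * x ^ 2) * (γ / δ ^ 2) := by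
      rw [hvx]; field_simp; ring
    rw [this, c3, hn2]
    ring
  have c5 : (n : ℝ) * (x ^ 2) ^ (n - 1) * (1 / δ ^ 2) * (2 * ‖v‖ * ℓ + γ) =
      2 * n * ((x ^ 2) ^ (n - 1) * x) * (ℓ / δ) + n * (x ^ 2) ^ (n - 1) * (γ / δ ^ 2) := by
    rw [hvx]; field_simp
  have hγ2 : 0 ≤ γ / δ ^ 2 := by positivity
  have hℓ2 : 0 ≤ ℓ / δ := by positivity
  have hS : (0 : ℝ) ≤ (x ^ 2) ^ n + (1 / 4) ^ n := by positivity
  have c6 : 2 * (n : ℝ) * ((x ^ 2) ^ (n - 1) * x) * (ℓ / δ) ≤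
      2 * n * (2 * ((x ^ 2) ^ n + (1 / 4) ^ n)) * (ℓ / δ) :=
    mul_le_mul_of_nonneg_right (mul_le_mul_of_nonneg_left p1 (by positivity)) hℓ2
  have c7 : 2 * (n : ℝ) ^ 2 * (x ^ 2) ^ (n - 1) * (γ / δ ^ 2) ≤
      2 * n ^ 2 * (4 * ((x ^ 2) ^ n + (1 / 4) ^ n)) * (γ / δ ^ 2) :=
    mul_le_mul_of_nonneg_right (mul_le_mul_of_nonneg_left p2 (by positivity)) hγ2
  have c8 : (n : ℝ) * (x ^ 2) ^ (n - 1) * (γ / δ ^ 2) +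
      2 * n * (n - 1) * (x ^ 2) ^ (n - 1) * (γ / δ ^ 2) ≤
      2 * n ^ 2 * (x ^ 2) ^ (n - 1) * (γ / δ ^ 2) := by
    have : 0 ≤ (n : ℝ) * ((x ^ 2) ^ (n - 1) * (γ / δ ^ 2)) := by positivity
    nlinarith
  have c9 : (4 * n * ℓ / δ + 8 * n ^ 2 * γ / δ ^ 2) * ((x ^ 2) ^ n + (1 / 4) ^ n) =
      2 * n * (2 * ((x ^ 2) ^ n + (1 / 4) ^ n)) * (ℓ / δ) +
      2 * n ^ 2 * (4 * ((x ^ 2) ^ n + (1 / 4) ^ n)) * (γ / δ ^ 2) := by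
    ring
  rw [c9]
  linarith

theorem pwu (hjal : JalStmt) : PwuStmt := by
  intro ι _ _ q κ _ F v l g δ ℓ γ n hδ hℓ hγ hn hF hl hg
  choose g' l' h1 h2 using fun k => one hjal ι q (F k) (v k) (l k) (g k) δ ℓ γ n hδ hℓ hγ hn
    (hF k) (hl k) (hg k)
  obtain ⟨-, -, -, -, -, hsum, -, -⟩ := hjal ι ℝ q
  refine ⟨_, _, hsum κ Finset.univ _ _ l' g' fun k _ => h1 k, ?_⟩
  refine (Finset.sum_le_sum fun k _ => h2 k).trans (le_of_eq ?_)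
  rw [← Finset.mul_sum, Finset.sum_add_distrib, Finset.sum_const, Finset.card_univ,
    nsmul_eq_mul]

end Pool.Agent.LE.QF.H67
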